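import Pool.Agent.Helper96.BC.St

/-!
# Project BC, module C7 (Bessel's inequality, orthogonal family with norms at most the root of D)
-/

set_option autoImplicit false

namespace Pool.Agent.Helper63.BC

open Filter Topology Pool.Agent.Helper96.BC Pool.Agent.Helper95.TT

private theorem c7_bdd {V : Type} (w g : V → ℝ) (C : ℝ) (hw : ∀ v, 0 ≤ w v) (hs : Summable w)
    (hg : ∀ v, |g v| ≤ C) : Summable (fun v => w v * g v) := by
  refine Summable.of_norm_bounded (g := fun v => C * w v) (hs.mul_left C) (fun v => ?_)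
  rw [Real.norm_eq_abs, abs_mul, abs_of_nonneg (hw v), mul_comm]
  exact mul_le_mul_of_nonneg_right (hg v) (hw v)

private theorem c7_le {V : Type} (w g : V → ℝ) (C : ℝ) (hw : ∀ v, 0 ≤ w v) (hs : Summable w)
    (hg : ∀ v, |g v| ≤ C) : |∑' v, w v * g v| ≤ C * ∑' v, w v := by
  have h1 := c7_bdd w g C hw hs hg
  rw [abs_le, ← tsum_mul_left, ← tsum_neg]
  constructor
  · refine Summable.tsum_le_tsum (fun v => ?_) (hs.mul_left C).neg h1
    have := (abs_le.1 (hg v)).1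
    nlinarith [hw v]
  · refine Summable.tsum_le_tsum (fun v => ?_) h1 (hs.mul_left C)
    have := (abs_le.1 (hg v)).2
    nlinarith [hw v]

private theorem c7_bes {V ι : Type} [Fintype ι] [DecidableEq ι] (w : V → ℝ) (c : V → ℝ)
    (φ : ι → V → ℝ) (B E D : ℝ) (hD : 0 < D) (hw : ∀ v, 0 ≤ w v) (hs : Summable w)
    (hc : ∀ v, |c v| ≤ B) (hφ : ∀ i v, |φ i v| ≤ E)
    (hG1 : ∀ i, ∑' v, w v * φ i v ^ 2 ≤ D) :
    ∑ i, (∑' v, w v * (c v * φ i v)) ^ 2 ≤ D * B ^ 2 * (∑' v, w v) +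
      D⁻¹ * ((|B| * |E|) * ∑' v, w v) ^ 2 *
        ∑ i, ∑ j, (if i = j then 0 else |∑' v, w v * (φ i v * φ j v)|) := by
  have hcc : ∀ v, |c v ^ 2| ≤ B ^ 2 := by
    intro v
    rw [abs_pow]
    exact pow_le_pow_left₀ (abs_nonneg _) (hc v) 2
  have hcx : ∀ i v, |c v * φ i v| ≤ |B| * |E| := by
    intro i v
    rw [abs_mul]
    exact mul_le_mul ((hc v).trans (le_abs_self _)) ((hφ i v).trans (le_abs_self _))
      (abs_nonneg _) (abs_nonneg _)
  have hxx : ∀ i j v, |φ i v * φ j v| ≤ |E| * |E| := by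
    intro i j v
    rw [abs_mul]
    exact mul_le_mul ((hφ i v).trans (le_abs_self _)) ((hφ j v).trans (le_abs_self _))
      (abs_nonneg _) (abs_nonneg _)
  obtain ⟨y, hy⟩ : ∃ y : ι → ℝ, ∀ i, y i = ∑' v, w v * (c v * φ i v) := ⟨_, fun _ => rfl⟩
  obtain ⟨G, hG⟩ : ∃ G : ι → ι → ℝ, ∀ i j, G i j = ∑' v, w v * (φ i v * φ j v) :=
    ⟨_, fun _ _ => rfl⟩
  obtain ⟨W, hW⟩ : ∃ W : ℝ, W = ∑' v, w v := ⟨_, rfl⟩
  obtain ⟨C2, hC2⟩ : ∃ C2 : ℝ, C2 = ∑' v, w v * c v ^ 2 := ⟨_, rfl⟩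
  have h1 : HasSum (fun v => w v * c v ^ 2) C2 := by
    rw [hC2]; exact (c7_bdd w _ _ hw hs hcc).hasSum
  have h2 : ∀ i, HasSum (fun v => w v * (c v * φ i v)) (y i) := by
    intro i; rw [hy]; exact (c7_bdd w _ _ hw hs (hcx i)).hasSum
  have h3 : ∀ i j, HasSum (fun v => w v * (φ i v * φ j v)) (G i j) := by
    intro i j; rw [hG]; exact (c7_bdd w _ _ hw hs (hxx i j)).hasSum
  have h4 : HasSum (fun v => w v * c v ^ 2 -
      2 * D⁻¹ * ∑ i, y i * (w v * (c v * φ i v)) +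
      D⁻¹ ^ 2 * ∑ i, ∑ j, (y i * y j) * (w v * (φ i v * φ j v)))
      (C2 - 2 * D⁻¹ * ∑ i, y i * y i + D⁻¹ ^ 2 * ∑ i, ∑ j, (y i * y j) * G i j) :=
    (h1.sub ((hasSum_sum (fun i _ => (h2 i).mul_left (y i))).mul_left _)).add
      ((hasSum_sum (fun i _ => hasSum_sum
        (fun j _ => (h3 i j).mul_left (y i * y j)))).mul_left _)
  have h5 : ∀ v, 0 ≤ w v * c v ^ 2 - 2 * D⁻¹ * ∑ i, y i * (w v * (c v * φ i v)) +
      D⁻¹ ^ 2 * ∑ i, ∑ j, (y i * y j) * (w v * (φ i v * φ j v)) := by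
    intro v
    have e : w v * c v ^ 2 - 2 * D⁻¹ * ∑ i, y i * (w v * (c v * φ i v)) +
      D⁻¹ ^ 2 * ∑ i, ∑ j, (y i * y j) * (w v * (φ i v * φ j v)) =
      w v * (c v - D⁻¹ * ∑ i, y i * φ i v) ^ 2 := by
      have e1 : ∑ i, y i * (w v * (c v * φ i v)) = w v * c v * ∑ i, y i * φ i v := by
        rw [Finset.mul_sum]; exact Finset.sum_congr rfl fun i _ => by ring
      have e2 : ∑ i, ∑ j, (y i * y j) * (w v * (φ i v * φ j v)) =
          w v * ((∑ i, y i * φ i v) * ∑ j, y j * φ j v) := by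
        rw [Finset.sum_mul_sum, Finset.mul_sum]
        refine Finset.sum_congr rfl fun i _ => ?_
        rw [Finset.mul_sum]
        exact Finset.sum_congr rfl fun j _ => by ring
      rw [e1, e2]; ring
    rw [e]
    exact mul_nonneg (hw v) (sq_nonneg _)
  have h6 := h4.nonneg h5
  have h7 : C2 ≤ B ^ 2 * W := by
    rw [hW, hC2]; exact (le_abs_self _).trans (c7_le w _ _ hw hs hcc)
  have h8 : ∀ i, |y i| ≤ (|B| * |E|) * W := by
    intro i; rw [hy, hW]; exact c7_le w _ _ hw hs (hcx i)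
  obtain ⟨S, hS⟩ : ∃ S : ℝ, S = ∑ i, ∑ j, (if i = j then 0 else |G i j|) := ⟨_, rfl⟩
  obtain ⟨Y, hY⟩ : ∃ Y : ℝ, Y = ∑ i, y i * y i := ⟨_, rfl⟩
  have h9 : ∑ i, ∑ j, (y i * y j) * G i j ≤ D * Y + ((|B| * |E|) * W) ^ 2 * S := by
    rw [hY, hS, Finset.mul_sum, Finset.mul_sum, ← Finset.sum_add_distrib]
    refine Finset.sum_le_sum fun i _ => ?_
    have e3 : D * (y i * y i) = ∑ j, (if i = j then D * (y i * y j) else 0) := by
      simp only [Finset.sum_ite_eq, Finset.mem_univ, if_true]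
    rw [e3, Finset.mul_sum, ← Finset.sum_add_distrib]
    refine Finset.sum_le_sum fun j _ => ?_
    by_cases hij : i = j
    · subst hij
      simp only [if_true, mul_zero, add_zero]
      have h10 : G i i ≤ D := by
        rw [hG]
        refine le_trans (le_of_eq ?_) (hG1 i)
        exact tsum_congr fun v => by rw [sq]
      nlinarith [mul_self_nonneg (y i)]
    · simp only [hij, if_false, zero_add]
      refine (le_abs_self _).trans ?_
      rw [abs_mul]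
      refine mul_le_mul_of_nonneg_right ?_ (abs_nonneg _)
      rw [abs_mul, sq]
      exact mul_le_mul (h8 i) (h8 j) (abs_nonneg _) ((abs_nonneg _).trans (h8 i))
  have h11 : ∑ i, (∑' v, w v * (c v * φ i v)) ^ 2 = Y := by
    rw [hY]; exact Finset.sum_congr rfl fun i _ => by rw [← hy, sq]
  have h12 : ∑ i, ∑ j, (if i = j then 0 else |∑' v, w v * (φ i v * φ j v)|) = S := by
    rw [hS]; exact Finset.sum_congr rfl fun i _ => Finset.sum_congr rfl fun j _ => by rw [← hG]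
  rw [h11, h12, ← hW]
  rw [← hY] at h6
  have hi : 0 < D⁻¹ := inv_pos.mpr hD
  have hDi : D * D⁻¹ = 1 := mul_inv_cancel₀ hD.ne'
  have h13 : D⁻¹ ^ 2 * ∑ i, ∑ j, (y i * y j) * G i j ≤
      D⁻¹ ^ 2 * (D * Y + ((|B| * |E|) * W) ^ 2 * S) :=
    mul_le_mul_of_nonneg_left h9 (sq_nonneg _)
  have h14 : 0 ≤ B ^ 2 * W - 2 * D⁻¹ * Y +
      D⁻¹ ^ 2 * (D * Y + ((|B| * |E|) * W) ^ 2 * S) := by linarith
  have h15 := mul_nonneg hD.le h14
  have e4 : D * (B ^ 2 * W - 2 * D⁻¹ * Y + D⁻¹ ^ 2 * (D * Y + ((|B| * |E|) * W) ^ 2 * S)) =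
      D * B ^ 2 * W - 2 * (D * D⁻¹) * Y + (D * D⁻¹) * (D * D⁻¹) * Y +
      (D * D⁻¹) * D⁻¹ * ((|B| * |E|) * W) ^ 2 * S := by ring
  rw [e4, hDi] at h15
  linarith

theorem hC7 : StC7 := by
  intro V ι _ w c φ B D E hD hw hW hc hφ hG hN ε hε
  classical
  have hB : 0 < B ^ 2 + 1 := by positivity
  obtain ⟨δ, hδ⟩ : ∃ δ : ℝ, δ = ε / (2 * (B ^ 2 + 1)) := ⟨_, rfl⟩
  have hδ0 : 0 < δ := by rw [hδ]; positivity
  have hδB : δ * B ^ 2 < ε := by
    have : δ * (2 * (B ^ 2 + 1)) = ε := by rw [hδ]; field_simp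
    nlinarith [sq_nonneg B]
  have hD' : 0 < D + δ := by linarith
  have hlim : Tendsto (fun s => (D + δ) * B ^ 2 * (∑' v, w s v) +
      (D + δ)⁻¹ * ((|B| * |E|) * ∑' v, w s v) ^ 2 *
        ∑ i, ∑ j, (if i = j then 0 else |∑' v, w s v * (φ i v * φ j v)|)) (𝓝[>] 1)
        (𝓝 ((D + δ) * B ^ 2 * 1 + (D + δ)⁻¹ * ((|B| * |E|) * 1) ^ 2 *
          ∑ i : ι, ∑ j : ι, (0 : ℝ))) := by
    refine (hW.const_mul _).add ((((hW.const_mul _).pow 2).const_mul _).mul ?_)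
    refine tendsto_finset_sum _ fun i _ => tendsto_finset_sum _ fun j _ => ?_
    by_cases hij : i = j
    · simp only [hij, if_true]
      exact tendsto_const_nhds
    · simp only [hij, if_false]
      simpa using (hG i j hij).abs
  simp only [Finset.sum_const_zero, mul_zero, add_zero, mul_one] at hlim
  have h1 := hlim.eventually_le_const
    (show (D + δ) * B ^ 2 < D * B ^ 2 + ε by nlinarith)
  have h2 : ∀ᶠ s : ℝ in 𝓝[>] 1, ∀ i, ∑' v, w s v * φ i v ^ 2 ≤ D + δ :=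
    eventually_all.2 fun i => hN i δ hδ0
  filter_upwards [h1, h2, hw] with s hs1 hs2 hs3
  exact (c7_bes (w s) c φ B E (D + δ) hD' hs3.1 hs3.2 hc hφ hs2).trans hs1

end Pool.Agent.Helper63.BC
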